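import Pool.Agent.H445Z.CubSt

set_option autoImplicit false

/-! The choice of the parameters in the lower bound for the cubature error. -/

namespace Pool.Agent.H552Z.CubF

open Filter Finset Pool.Agent.H445Z.Cub

lemma quot {D : ℕ} (hD : 1 ≤ D) {C k n n0 X R : ℝ} (hC : 0 < C) (hk : 1 ≤ k) (hn : 0 < n)
    (h1 : n / (4 * D) ≤ n0) (h2 : n0 ≤ n) (h3 : k * n ^ D ≤ X) (hR0 : 0 ≤ R)
    (hR : R ≤ √k * (2 ^ D * X)) :
    (2 * (4 * D) ^ D * (1 + C * 2 ^ D))⁻¹ * (√k * n ^ D / X) ≤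
      (k * n0 ^ D / 2) / (k * n0 ^ D + C * R) := by
  have hD' : (0 : ℝ) < D := by exact_mod_cast hD
  have hn0 : 0 < n0 := lt_of_lt_of_le (by positivity) h1
  have hX : 0 < X := lt_of_lt_of_le (by positivity) h3
  have hs : 1 ≤ √k := Real.one_le_sqrt.2 hk
  have hss : √k * √k = k := Real.mul_self_sqrt (by linarith)
  have a1 : k * (n / (4 * D)) ^ D / 2 ≤ k * n0 ^ D / 2 := by gcongr
  have a2 : k * n0 ^ D + C * R ≤ √k * X * (1 + C * 2 ^ D) := by
    have b1 : k * n0 ^ D ≤ √k * X := by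
      calc k * n0 ^ D ≤ k * n ^ D := by gcongr
        _ ≤ X := h3
        _ ≤ √k * X := le_mul_of_one_le_left hX.le hs
    have b2 : C * R ≤ C * (√k * (2 ^ D * X)) := by gcongr
    nlinarith
  refine le_trans (le_of_eq ?_) (div_le_div₀ (by positivity) a1 (by positivity) a2)
  rw [div_pow]
  field_simp
  rw [sq, hss]

lemma log_top : Tendsto (Nat.log 2) atTop atTop :=
  tendsto_atTop_atTop_of_monotone Nat.log_monotone fun b => ⟨2 ^ b, by simp [Nat.log_pow]⟩

lemma clog_top : Tendsto (Nat.clog 2) atTop atTop :=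
  tendsto_atTop_atTop_of_monotone (Nat.clog_monotone 2) fun b => ⟨2 ^ b, by simp [Nat.clog_pow]⟩

lemma ev_pow (k : ℕ) {b : ℝ} (hb : 1 < b) {K : ℝ} (hK : 0 < K) :
    ∀ᶠ n : ℕ in atTop, K * (n : ℝ) ^ k ≤ b ^ n := by
  have := (tendsto_pow_const_div_const_pow_of_one_lt k hb).eventually
    (ge_mem_nhds (show (0 : ℝ) < K⁻¹ by positivity))
  filter_upwards [this] with n hn
  rw [div_le_iff₀ (by positivity)] at hn
  calc K * (n : ℝ) ^ k ≤ K * (K⁻¹ * b ^ n) := by gcongr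
    _ = b ^ n := by field_simp

lemma ev_log (K : ℕ) : ∀ᶠ n : ℕ in atTop, K * (Nat.log 2 n + 2) ≤ n := by
  have h1 := log_top.eventually ((ev_pow 1 (b := 2) (by norm_num) (K := 3 * K + 1)
    (by positivity)).and (eventually_ge_atTop 1))
  filter_upwards [h1, eventually_ge_atTop 1] with n hn hn1
  have h2 : (3 * K + 1) * Nat.log 2 n ≤ 2 ^ Nat.log 2 n := by
    have := hn.1
    rw [pow_one] at this
    exact_mod_cast this
  have h3 := Nat.pow_log_le_self 2 (x := n) (by omega)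
  nlinarith [hn.2]

/-- the bound in terms of `n` -/
lemma core (hmid : S_mid) {D : ℕ} {p r : ℝ} (hD : 1 ≤ D) (hp : 1 ≤ p) (hr : 0 < r)
    (hr2 : r ≤ 1 / 2) : ∃ c : ℝ, 0 < c ∧ ∀ᶠ n : ℕ in atTop, ∀ (m : ℕ) (lv : Finset ℕ), m ≤ 2 ^ n →
      lv.Nonempty → (∀ i ∈ lv, i ≤ Nat.log 2 n ∧ (i = Nat.log 2 n ∨ r = 1 / 2)) →
      ENNReal.ofReal (c * (√lv.card * (n : ℝ) ^ D / ((2 : ℝ) ^ (r * n) * (n : ℝ) ^ (r * D)))) ≤
        kappa (D + 1) m (sobolev (D + 1) r p) := by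
  obtain ⟨C, c0, hC, h⟩ := hmid D p r hD hp hr hr2
  have hD' : (0 : ℝ) < D := by exact_mod_cast hD
  refine ⟨(2 * (4 * D) ^ D * (1 + C * 2 ^ D))⁻¹, by positivity, ?_⟩
  filter_upwards [eventually_ge_atTop (4 * D), eventually_ge_atTop c0, ev_log (c0 * (2 * D)),
    ev_log 1, ev_pow (D + 1) (b := (2 : ℝ) ^ r) (Real.one_lt_rpow (by norm_num) hr) one_pos]
    with n h1 h2 h3 h4 h5 m lv hm hne hlv
  have hn1 : 1 ≤ n := by omega
  have hn : (1 : ℝ) ≤ n := by exact_mod_cast hn1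
  have hI := Nat.pow_log_le_self 2 (x := n) (by omega)
  have hI2 := Nat.lt_pow_succ_log_self (b := 2) (by norm_num) n
  refine le_trans (ENNReal.ofReal_le_ofReal ?_) (h m n (n / (2 * D)) lv hm h2
    (Nat.mul_div_le _ _) fun i hi => ⟨?_, ?_⟩)
  · have hk : (1 : ℝ) ≤ lv.card := by exact_mod_cast hne.card_pos
    have hkn : (lv.card : ℝ) ≤ n := by
      have : lv.card ≤ (range (Nat.log 2 n + 1)).card :=
        card_le_card fun i hi => mem_range.2 (Nat.lt_succ_of_le (hlv i hi).1)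
      rw [card_range] at this
      exact_mod_cast (by omega : lv.card ≤ n)
    have hX : (1 : ℝ) ≤ (n : ℝ) ^ (r * D) := Real.one_le_rpow hn (by positivity)
    refine quot hD hC hk (by linarith) ?_ ?_ ?_ (Real.sqrt_nonneg _) ?_
    · have a1 : n < 2 * D * (n / (2 * D) + 1) := Nat.lt_mul_div_succ n (by omega)
      have a2 : (n : ℝ) ≤ 2 * D * ((n / (2 * D) : ℕ) + 1) := by exact_mod_cast a1.le
      have a3 : (4 * D : ℝ) ≤ n := by exact_mod_cast h1
      rw [div_le_iff₀ (by positivity)]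
      nlinarith
    · exact_mod_cast Nat.div_le_self _ _
    · calc (lv.card : ℝ) * (n : ℝ) ^ D ≤ n * (n : ℝ) ^ D := by gcongr
        _ = 1 * (n : ℝ) ^ (D + 1) := by ring
        _ ≤ ((2 : ℝ) ^ r) ^ n := h5
        _ = (2 : ℝ) ^ (r * n) := by rw [← Real.rpow_natCast, ← Real.rpow_mul (by norm_num)]
        _ ≤ _ := le_mul_of_one_le_right (by positivity) hX
    · rw [← Real.sqrt_sq (show (0 : ℝ) ≤ 2 ^ D * ((2 : ℝ) ^ (r * n) * (n : ℝ) ^ (r * D)) by
        positivity), ← Real.sqrt_mul (by positivity)]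
      refine Real.sqrt_le_sqrt ?_
      rw [← nsmul_eq_mul]
      refine sum_le_card_nsmul _ _ _ fun i hi => ?_
      have e1 : (2 : ℝ) ^ (2 * r * (n + D * i)) =
          ((2 : ℝ) ^ (r * n)) ^ 2 * (((2 : ℝ) ^ i) ^ (r * D)) ^ 2 := by
        rw [← Real.rpow_natCast (2 : ℝ) i, ← Real.rpow_mul (by norm_num), ← mul_pow,
          ← Real.rpow_add (by norm_num), ← Real.rpow_natCast, ← Real.rpow_mul (by norm_num)]
        congr 1
        push_cast; ring
      have e2 : (1 : ℝ) ≤ 2 ^ D := one_le_pow₀ (by norm_num)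
      have e3 : ((2 : ℝ) ^ D * ((2 : ℝ) ^ (r * n) * (n : ℝ) ^ (r * D))) ^ 2 =
          ((2 : ℝ) ^ (r * n)) ^ 2 * (((2 : ℝ) ^ D) ^ 2 * ((n : ℝ) ^ (r * D)) ^ 2) := by ring
      rw [e1, e3, mul_assoc]
      refine mul_le_mul_of_nonneg_left ?_ (by positivity)
      rcases (hlv i hi).2 with rfl | rfl
      · rw [mul_comm]
        have b1 : ((2 : ℝ) ^ Nat.log 2 n) ≤ n := by exact_mod_cast hI
        have b2 : (n : ℝ) / 2 ^ Nat.log 2 n ≤ 2 := by
          rw [div_le_iff₀ (by positivity), ← pow_succ']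
          exact_mod_cast hI2.le
        have b3 : ((n : ℝ) / 2 ^ Nat.log 2 n) ^ D ≤ (2 ^ D) ^ 2 := by
          calc _ ≤ (2 : ℝ) ^ D := by gcongr
            _ ≤ _ := by nlinarith
        gcongr
      · have b1 : ∀ x : ℝ, 0 ≤ x → (x ^ (1 / 2 * (D : ℝ))) ^ 2 = x ^ D := fun x hx => by
          rw [← Real.rpow_natCast, ← Real.rpow_mul hx, ← Real.rpow_natCast]
          congr 1
          push_cast; ring
        rw [b1 _ (by positivity), b1 _ (by positivity), ← mul_pow,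
          mul_div_cancel₀ _ (by positivity)]
        exact le_mul_of_one_le_left (by positivity) (by nlinarith)
  · rw [Nat.le_div_iff_mul_le (by omega)]
    have := (hlv i hi).1
    calc c0 * (i + 2) * (2 * D) = c0 * (2 * D) * (i + 2) := by ring
      _ ≤ c0 * (2 * D) * (Nat.log 2 n + 2) := by gcongr
      _ ≤ n := h3
  · exact (Nat.pow_le_pow_right (by norm_num) (hlv i hi).1).trans hI

lemma pull {D m : ℕ} {r : ℝ} (hr : 0 < r) (hr2 : r ≤ 1 / 2) (hm : 2 ≤ m) :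
    (m : ℝ) ^ (-r) * Real.log m ^ ((D : ℝ) * (1 - r)) ≤ 2 * ((Nat.clog 2 m : ℝ) ^ D /
      ((2 : ℝ) ^ (r * Nat.clog 2 m) * (Nat.clog 2 m : ℝ) ^ (r * D))) ∧
      Real.log m ≤ Nat.clog 2 m := by
  set n := Nat.clog 2 m with hn
  have hn1 : 0 < n := Nat.clog_pos (by norm_num) hm
  have hn0 : (0 : ℝ) < n := by exact_mod_cast hn1
  have hm0 : (2 : ℝ) ≤ m := by exact_mod_cast hm
  have h1 : (m : ℝ) ≤ 2 ^ n := by exact_mod_cast Nat.le_pow_clog (by norm_num) m
  have h2 : (2 : ℝ) ^ n ≤ 2 * m := by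
    have := Nat.pow_pred_clog_lt_self (b := 2) (by norm_num) (x := m) (by omega)
    have e : 2 ^ n = 2 * 2 ^ (n.pred) := by
      conv_lhs => rw [← Nat.succ_pred_eq_of_pos hn1, pow_succ']
    have : 2 ^ n ≤ 2 * m := by rw [e]; exact Nat.mul_le_mul_left _ this.le
    exact_mod_cast this
  have h3 : Real.log m ≤ n := by
    calc Real.log m ≤ Real.log (2 ^ n) := Real.log_le_log (by linarith) h1
      _ = n * Real.log 2 := by rw [Real.log_pow]
      _ ≤ n := mul_le_of_le_one_right hn0.le (by linarith [Real.log_two_lt_d9])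
  refine ⟨?_, h3⟩
  have h4 : (0 : ℝ) ≤ Real.log m := Real.log_nonneg (by linarith)
  have h5 : Real.log m ^ ((D : ℝ) * (1 - r)) ≤ (n : ℝ) ^ D / (n : ℝ) ^ (r * D) := by
    rw [← Real.rpow_natCast, ← Real.rpow_sub hn0]
    have : (D : ℝ) - r * D = D * (1 - r) := by ring
    rw [this]
    exact Real.rpow_le_rpow h4 h3 (mul_nonneg (by positivity) (by linarith))
  have h6 : (m : ℝ) ^ (-r) ≤ 2 / (2 : ℝ) ^ (r * n) := by
    rw [Real.rpow_neg (by linarith), inv_eq_one_div,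
      div_le_div_iff₀ (by positivity) (by positivity), one_mul, mul_comm r,
      Real.rpow_mul (by norm_num), Real.rpow_natCast]
    calc ((2 : ℝ) ^ n) ^ r ≤ (2 * m) ^ r := by gcongr
      _ = 2 ^ r * (m : ℝ) ^ r := Real.mul_rpow (by norm_num) (by linarith)
      _ ≤ 2 * (m : ℝ) ^ r := by
          gcongr
          calc (2 : ℝ) ^ r ≤ 2 ^ (1 : ℝ) := by gcongr <;> linarith
            _ = 2 := Real.rpow_one 2
  calc _ ≤ 2 / (2 : ℝ) ^ (r * n) * ((n : ℝ) ^ D / (n : ℝ) ^ (r * D)) := by gcongr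
    _ = _ := by field_simp

theorem thm_final : S_mid → S_final := by
  intro hmid d p r hd hp hr
  obtain ⟨D, rfl⟩ : ∃ D, d = D + 1 := ⟨d - 1, by omega⟩
  have hD : 1 ≤ D := by omega
  have hr0 : 0 < r := lt_trans (by positivity) hr
  have eD : ((D + 1 : ℕ) : ℝ) - 1 = D := by push_cast; ring
  rw [eD]
  constructor
  · intro hr2
    obtain ⟨c, hc, h⟩ := core hmid hD (by linarith : 1 ≤ p) hr0 hr2.le
    refine ⟨c / 2, by positivity, ?_⟩
    filter_upwards [clog_top.eventually h, eventually_ge_atTop 2] with m h1 hm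
    refine le_trans (ENNReal.ofReal_le_ofReal ?_) (h1 m {Nat.log 2 (Nat.clog 2 m)}
      (Nat.le_pow_clog (by norm_num) m) (singleton_nonempty _) fun i hi => by
        rw [mem_singleton.1 hi]; exact ⟨le_rfl, Or.inl rfl⟩)
    have := (pull (D := D) hr0 hr2.le hm).1
    simp only [card_singleton, Nat.cast_one, Real.sqrt_one, one_mul]
    nlinarith
  · intro hr2
    obtain ⟨c, hc, h⟩ := core hmid hD (by linarith : 1 ≤ p) hr0 hr2.le
    refine ⟨c / 2, by positivity, ?_⟩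
    filter_upwards [clog_top.eventually h, eventually_ge_atTop 2] with m h1 hm
    refine le_trans (ENNReal.ofReal_le_ofReal ?_) (h1 m (range (Nat.log 2 (Nat.clog 2 m) + 1))
      (Nat.le_pow_clog (by norm_num) m) ⟨0, by simp⟩ fun i hi =>
        ⟨Nat.lt_succ_iff.1 (mem_range.1 hi), Or.inr hr2⟩)
    obtain ⟨k1, k2⟩ := pull (D := D) hr0 hr2.le hm
    have e : (D : ℝ) / 2 = D * (1 - r) := by rw [hr2]; ring
    have hm0 : (2 : ℝ) ≤ m := by exact_mod_cast hm
    have hl : 0 < Real.log m := Real.log_pos (by linarith)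
    have k3 : √(Real.log (Real.log m)) ≤ √((range (Nat.log 2 (Nat.clog 2 m) + 1)).card : ℝ) := by
      refine Real.sqrt_le_sqrt ?_
      rw [card_range]
      have b1 : ((Nat.clog 2 m : ℕ) : ℝ) ≤ 2 ^ (Nat.log 2 (Nat.clog 2 m) + 1) := by
        exact_mod_cast (Nat.lt_pow_succ_log_self (b := 2) (by norm_num) _).le
      calc Real.log (Real.log m) ≤ Real.log (2 ^ (Nat.log 2 (Nat.clog 2 m) + 1)) :=
            Real.log_le_log hl (k2.trans b1)
        _ = (Nat.log 2 (Nat.clog 2 m) + 1 : ℕ) * Real.log 2 := by rw [Real.log_pow]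
        _ ≤ _ := mul_le_of_le_one_right (by positivity) (by linarith [Real.log_two_lt_d9])
    rw [e, mul_div_assoc (√_)]
    calc _ = c / 2 * (((m : ℝ) ^ (-r) * Real.log m ^ ((D : ℝ) * (1 - r))) *
          √(Real.log (Real.log m))) := by ring
      _ ≤ c / 2 * ((2 * ((Nat.clog 2 m : ℝ) ^ D / ((2 : ℝ) ^ (r * Nat.clog 2 m) *
          (Nat.clog 2 m : ℝ) ^ (r * D)))) * √((range (Nat.log 2 (Nat.clog 2 m) + 1)).card : ℝ)) := by
          gcongr
      _ = _ := by ring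

end Pool.Agent.H552Z.CubF
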