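import Pool.Agent.H547Z.PosAbs
import Pool.Agent.H572Z.Ex.Defs
import Pool.Agent.H572Z.Sp.Main

set_option autoImplicit false

/-!
# One-sided testing under a mixed condition
-/

namespace Pool.Agent.H552Z.Pos

open MeasureTheory Set Pool.Agent.H572Z.Sp Pool.Agent.H572Z.Ex Pool.Agent.H547Z.Pos
open scoped ENNReal NNReal Classical

variable {d : ℕ}

lemma conj_holder {p : ℝ} (hp : 1 < p) : p.HolderConjugate (conj p) :=
  Real.HolderConjugate.conjExponent hp

lemma conj_conj {p : ℝ} (hp : 1 < p) : conj (conj p) = p := by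
  have : p - 1 ≠ 0 := by linarith
  unfold conj
  have h2 : p / (p - 1) - 1 = 1 / (p - 1) := by field_simp; ring
  rw [h2]; field_simp

lemma dual_dual {p : ℝ} (hp : 1 < p) {w : E d → ℝ} (hw : ∀ x, 0 < w x) :
    dual (conj p) (dual p w) = w := by
  funext x
  have : p - 1 ≠ 0 := by linarith
  simp only [dual, conj_conj hp]
  rw [← Real.rpow_mul (hw x).le]
  have : (1 - conj p) * (1 - p) = 1 := by unfold conj; field_simp; ring
  rw [this, Real.rpow_one]

/-- the real inequality behind the classes -/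
lemma core_real {p θ : ℝ} (hp : 1 < p) (hθ : 1 / p < θ) : ∃ l c : ℝ, 0 < l ∧
    ∀ a s m k : ℝ, -m ≤ (p - 1) * s → θ * (a + (p - 1) * s) + (1 - θ) * (a - m) ≤ k →
      ∃ u j : ℤ, a ≤ u * Real.log 4 ∧ j * Real.log 2 + (k - u * Real.log 4) / (p - 1) ≤ s ∧
        s ≤ Real.log 2 + (j * Real.log 2 + (k - u * Real.log 4) / (p - 1)) ∧
        conj p * (u * Real.log 4 + 2 * j.natAbs * l) + s ≤ conj p * (c + k) + m := by
  have hp1 : 0 < p - 1 := by linarith
  have hp0 : 0 < p := by linarith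
  have h2 : 0 < Real.log 2 := Real.log_pos (by norm_num)
  have h4 : 0 < Real.log 4 := Real.log_pos (by norm_num)
  set η := min 1 (θ - 1 / p) with hη
  have hη0 : 0 < η := lt_min one_pos (by linarith)
  have hη1 : η ≤ 1 := min_le_left _ _
  have hη2 : η ≤ θ - 1 / p := min_le_right _ _
  have hθ0 : 0 < θ := lt_trans (by positivity) hθ
  refine ⟨(p - 1) * η * Real.log 2 / 2, Real.log 4 + η * ((p - 1) * Real.log 2 + Real.log 4),
    by positivity, fun a s m k h1 hk => ?_⟩
  set u : ℤ := ⌈a / Real.log 4⌉ with hu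
  have hu1 : a ≤ u * Real.log 4 := by
    have := Int.le_ceil (a / Real.log 4)
    rwa [div_le_iff₀ h4] at this
  have hu2 : u * Real.log 4 ≤ a + Real.log 4 := by
    have := (Int.ceil_lt_add_one (a / Real.log 4)).le
    have h3 := mul_le_mul_of_nonneg_right this h4.le
    rwa [add_mul, div_mul_cancel₀ _ h4.ne', one_mul] at h3
  set t := s - (k - u * Real.log 4) / (p - 1) with ht
  set j : ℤ := ⌊t / Real.log 2⌋ with hj
  have hj1 : j * Real.log 2 ≤ t := by
    have := Int.floor_le (t / Real.log 2)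
    rwa [le_div_iff₀ h2] at this
  have hj2 : t ≤ j * Real.log 2 + Real.log 2 := by
    have := (Int.lt_floor_add_one (t / Real.log 2)).le
    rw [div_le_iff₀ h2] at this
    linarith
  refine ⟨u, j, hu1, by linarith, by linarith, ?_⟩
  set z := (p - 1) * s + m with hz
  have hz0 : 0 ≤ z := by linarith
  set D := a + (p - 1) * s - k with hD
  have hk' : a - m + θ * z ≤ k := by rw [hz]; linarith
  have hzp : z / p ≤ z := div_le_self hz0 hp.le
  have hΦ : a - m + z / p - k ≤ -(η * |D|) := by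
    rcases le_total D 0 with h | h
    · rw [abs_of_nonpos h]
      nlinarith
    · rw [abs_of_nonneg h]
      have h5 : D ≤ z := by nlinarith [mul_nonneg hθ0.le hz0]
      have h6 : η * D ≤ (θ - 1 / p) * z := mul_le_mul hη2 h5 h (by linarith)
      have h7 : z / p = 1 / p * z := by ring
      nlinarith
  have ht' : (p - 1) * t = D + (u * Real.log 4 - a) := by
    rw [ht, hD]; field_simp; ring
  have hjabs : ((j.natAbs : ℕ) : ℝ) = |(j : ℝ)| := by
    rw [Nat.cast_natAbs]; push_cast; rfl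
  have ht2 : (|(j : ℝ)| - 1) * Real.log 2 ≤ |t| := by
    rcases le_total 0 (j : ℝ) with h | h
    · rw [abs_of_nonneg h]; linarith [le_abs_self t]
    · rw [abs_of_nonpos h]; linarith [neg_abs_le t]
  have ht3 : (p - 1) * |t| ≤ |D| + Real.log 4 := by
    have e0 : (p - 1) * |t| = |(p - 1) * t| := by rw [abs_mul, abs_of_pos hp1]
    rw [e0, ht']
    refine (abs_add_le _ _).trans ?_
    rw [abs_of_nonneg (by linarith : 0 ≤ u * Real.log 4 - a)]
    linarith
  have ht4 : (p - 1) * ((|(j : ℝ)| - 1) * Real.log 2) ≤ |D| + Real.log 4 :=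
    (mul_le_mul_of_nonneg_left ht2 hp1.le).trans ht3
  have ht5 := mul_le_mul_of_nonneg_left ht4 hη0.le
  have key : u * Real.log 4 + 2 * |(j : ℝ)| * ((p - 1) * η * Real.log 2 / 2) + (z / p - m) ≤
      Real.log 4 + η * ((p - 1) * Real.log 2 + Real.log 4) + k := by nlinarith
  have hq : 0 < conj p := (conj_holder hp).symm.pos
  have e : s - m = conj p * (z / p - m) := by
    rw [hz]; unfold conj; field_simp; ring
  rw [hjabs]
  have := mul_le_mul_of_nonneg_left key hq.le
  nlinarith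

/-- weights with finite averages of the weight and of the dual weight over cubes -/
def Nice (p : ℝ) (w : E d → ℝ) : Prop :=
  Measurable w ∧ (∀ x, 0 < w x) ∧ ∀ (a : Fin d → ℝ) (l : ℝ), 0 < l →
    avg w (cube a l) ≠ ⊤ ∧ avg (dual p w) (cube a l) ≠ ⊤

lemma cube_ne_zero (a : Fin d → ℝ) {l : ℝ} (hl : 0 < l) : volume (cube a l) ≠ 0 := by
  rw [cube_vol]
  exact pow_ne_zero _ (ENNReal.ofReal_pos.2 hl).ne'

lemma cube_ne_top (a : Fin d → ℝ) (l : ℝ) : volume (cube a l) ≠ ⊤ := by
  rw [cube_vol]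
  exact ENNReal.pow_ne_top ENNReal.ofReal_ne_top

lemma lint_ne_zero {w : E d → ℝ} (hm : Measurable w) (hw : ∀ x, 0 < w x) {Q : Set (E d)}
    (hQ : volume Q ≠ 0) : ∫⁻ x in Q, ENNReal.ofReal (w x) ≠ 0 := by
  intro h
  rw [lintegral_eq_zero_iff hm.ennreal_ofReal] at h
  have h2 : ∀ᵐ x ∂(volume.restrict Q), False := h.mono fun x hx =>
    (ENNReal.ofReal_pos.2 (hw x)).ne' hx
  rw [Filter.eventually_false_iff_eq_bot, ae_eq_bot, Measure.restrict_eq_zero] at h2
  exact hQ h2

lemma avg_ne_zero {w : E d → ℝ} (hm : Measurable w) (hw : ∀ x, 0 < w x) (a : Fin d → ℝ) {l : ℝ}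
    (hl : 0 < l) : avg w (cube a l) ≠ 0 :=
  ENNReal.div_ne_zero.2 ⟨lint_ne_zero hm hw (cube_ne_zero a hl), cube_ne_top a l⟩

lemma dual_meas (p : ℝ) {w : E d → ℝ} (hm : Measurable w) : Measurable (dual p w) :=
  hm.pow_const _

lemma dual_pos (p : ℝ) {w : E d → ℝ} (hw : ∀ x, 0 < w x) (x : E d) : 0 < dual p w x :=
  Real.rpow_pos_of_pos (hw x) _

lemma Nice.dual {p : ℝ} (hp : 1 < p) {w : E d → ℝ} (h : Nice p w) : Nice (conj p) (dual p w) :=
  ⟨dual_meas p h.1, dual_pos p h.2.1, fun a l hl => by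
    rw [dual_dual hp h.2.1]; exact (h.2.2 a l hl).symm⟩

lemma avg_mul (w : E d → ℝ) (a : Fin d → ℝ) {l : ℝ} (hl : 0 < l) :
    avg w (cube a l) * volume (cube a l) = wmeas w (cube a l) := by
  rw [avg, wmeas, withDensity_apply _ (cube_meas a l),
    ENNReal.div_mul_cancel (cube_ne_zero a hl) (cube_ne_top a l)]

lemma avg_eq (w : E d → ℝ) (a : Fin d → ℝ) (l : ℝ) :
    (volume (cube a l))⁻¹ * wmeas w (cube a l) = avg w (cube a l) := by
  rw [avg, wmeas, withDensity_apply _ (cube_meas a l), div_eq_mul_inv, mul_comm]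

lemma nice_of_inAp {p : ℝ} (hp : 1 < p) {w : E d → ℝ} (h : InAp p w) : Nice p w := by
  refine ⟨h.1, h.2.1, fun a l hl => ⟨?_, ?_⟩⟩
  · exact ENNReal.div_ne_top (IsWeight.fin ⟨h.1, fun x => (h.2.1 x).le, h.2.2.1⟩
      (cube_bounded a hl)) (cube_ne_zero a hl)
  · intro ht
    have h0 : Ap p w (cube a l) ≤ ⨆ (a : Fin d → ℝ) (l : ℝ) (_ : 0 < l), Ap p w (cube a l) :=
      le_iSup_of_le a (le_iSup_of_le l (le_iSup_of_le (f := fun _ : 0 < l => Ap p w (cube a l))
        hl le_rfl))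
    have h1 : Ap p w (cube a l) < ⊤ := lt_of_le_of_lt h0 h.2.2.2
    rw [Ap, ht, ENNReal.top_rpow_of_pos (by linarith),
      ENNReal.mul_top (avg_ne_zero h.1 h.2.1 a hl)] at h1
    exact lt_irrefl _ h1

lemma integrableOn_of_avg {v : E d → ℝ} (hm : Measurable v) (hv : ∀ x, 0 ≤ v x) (a : Fin d → ℝ)
    {l : ℝ} (hl : 0 < l) (h : avg v (cube a l) ≠ ⊤) : IntegrableOn v (cube a l) := by
  refine ⟨hm.aestronglyMeasurable, ?_⟩
  rw [hasFiniteIntegral_iff_ofReal (Filter.Eventually.of_forall hv), lt_top_iff_ne_top]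
  intro ht
  rw [avg, ht, ENNReal.top_div_of_ne_top (cube_ne_top a l)] at h
  exact h rfl

lemma avg_ofReal {v : E d → ℝ} (hv : ∀ x, 0 ≤ v x) (a : Fin d → ℝ) {l : ℝ} (hl : 0 < l)
    (h : IntegrableOn v (cube a l)) : ENNReal.ofReal (⨍ x in cube a l, v x) = avg v (cube a l) := by
  rw [avg, ofReal_setAverage h (Filter.Eventually.of_forall hv)]

/-- the mean of the logarithm -/
noncomputable def gm (w : E d → ℝ) (Q : Set (E d)) : ℝ := ⨍ x in Q, Real.log (w x)

lemma log_int {p : ℝ} (hp : 1 < p) {w : E d → ℝ} (h : Nice p w) (a : Fin d → ℝ) {l : ℝ}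
    (hl : 0 < l) : IntegrableOn (fun x => Real.log (w x)) (cube a l) := by
  have h1 := integrableOn_of_avg h.1 (fun x => (h.2.1 x).le) a hl (h.2.2 a l hl).1
  have h2 := integrableOn_of_avg (dual_meas p h.1) (fun x => (dual_pos p h.2.1 x).le) a hl
    (h.2.2 a l hl).2
  refine (h1.add (h2.const_mul (p - 1))).mono' h.1.log.aestronglyMeasurable
    (Filter.Eventually.of_forall fun x => ?_)
  have hx := h.2.1 x
  have hd := dual_pos p h.2.1 x
  have hp1 : 0 < p - 1 := by linarith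
  have e1 := Real.log_le_sub_one_of_pos hx
  have e2 := Real.log_le_sub_one_of_pos hd
  have e3 : (p - 1) * Real.log (dual p w x) = -Real.log (w x) := by
    rw [dual, Real.log_rpow hx]; unfold conj; field_simp; ring
  have e4 := mul_le_mul_of_nonneg_left e2 hp1.le
  simp only [Pi.add_apply, Real.norm_eq_abs]
  rw [abs_le]
  constructor <;> nlinarith [mul_pos hp1 hd]

lemma jensen {p : ℝ} (hp : 1 < p) {w : E d → ℝ} (h : Nice p w) (a : Fin d → ℝ) {l : ℝ}
    (hl : 0 < l) (t : ℝ) (hi : IntegrableOn (fun x => w x ^ t) (cube a l)) :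
    ENNReal.ofReal (Real.exp (t * gm w (cube a l))) ≤ avg (fun x => w x ^ t) (cube a l) := by
  have e : ∀ x, Real.exp (t * Real.log (w x)) = w x ^ t := fun x => by
    rw [Real.rpow_def_of_pos (h.2.1 x), mul_comm]
  rw [← avg_ofReal (fun x => (Real.rpow_pos_of_pos (h.2.1 x) t).le) a hl hi]
  refine ENNReal.ofReal_le_ofReal ?_
  have := ConvexOn.map_set_average_le (f := fun x => t * Real.log (w x)) convexOn_exp
    Real.continuous_exp.continuousOn isClosed_univ (cube_ne_zero a hl) (cube_ne_top a l)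
    (Filter.Eventually.of_forall fun _ => mem_univ _) ((log_int hp h a hl).const_mul t)
    (by simpa [Function.comp_def, e] using hi)
  simp only [e] at this
  have e2 : ⨍ x in cube a l, t * Real.log (w x) = t * gm w (cube a l) := by
    rw [gm, average_eq, average_eq, integral_const_mul, smul_eq_mul, smul_eq_mul]; ring
  rwa [e2] at this

end Pool.Agent.H552Z.Pos
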