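import Pool.Agent.H552Z.Pos1

set_option autoImplicit false

/-!
# The embedding of geometric means and the one-sided testing estimate
-/

namespace Pool.Agent.H552Z.Pos

open MeasureTheory Set Pool.Agent.H572Z.Sp Pool.Agent.H572Z.Ex Pool.Agent.H547Z.Pos
open scoped ENNReal NNReal Classical

variable {d : ℕ}

/-- the exponential with values in `[0, ∞]` -/
noncomputable def ex (x : ℝ) : ℝ≥0∞ := ENNReal.ofReal (Real.exp x)

lemma ex_add (x y : ℝ) : ex (x + y) = ex x * ex y := by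
  rw [ex, Real.exp_add, ENNReal.ofReal_mul (Real.exp_pos _).le]; rfl

lemma ex_rpow (x r : ℝ) : ex x ^ r = ex (r * x) := by
  rw [ex, ENNReal.ofReal_rpow_of_pos (Real.exp_pos _), ← Real.exp_mul, mul_comm]; rfl

lemma ex_pow (x : ℝ) (n : ℕ) : ex x ^ n = ex (n * x) := by
  rw [← ENNReal.rpow_natCast, ex_rpow]

lemma ex_le {x y : ℝ} : ex x ≤ ex y ↔ x ≤ y := by
  rw [ex, ex, ENNReal.ofReal_le_ofReal_iff (Real.exp_pos _).le, Real.exp_le_exp]

lemma ex_ne_zero (x : ℝ) : ex x ≠ 0 := (ENNReal.ofReal_pos.2 (Real.exp_pos _)).ne'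

lemma ex_ne_top (x : ℝ) : ex x ≠ ⊤ := ENNReal.ofReal_ne_top

lemma ex_inv (x : ℝ) : (ex x)⁻¹ = ex (-x) := by
  rw [← ENNReal.rpow_neg_one, ex_rpow, neg_one_mul]

lemma exists_ex {a : ℝ≥0∞} (h0 : a ≠ 0) (ht : a ≠ ⊤) : ∃ x, a = ex x :=
  ⟨Real.log a.toReal, by
    rw [ex, Real.exp_log (ENNReal.toReal_pos h0 ht), ENNReal.ofReal_toReal ht]⟩

lemma ex_log_two : ex (Real.log 2) = 2 := by
  rw [ex, Real.exp_log (by norm_num)]; simp

lemma four_zpow_ex (u : ℤ) : (4 : ℝ≥0∞) ^ u = ex (u * Real.log 4) := by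
  have : ex (Real.log 4) = 4 := by rw [ex, Real.exp_log (by norm_num)]; simp
  rw [← ex_rpow, this, ENNReal.rpow_intCast]

lemma Good_mono {C : ℝ≥0∞} {S S' : Finset (Set (E d))} (h : Good C S) (hs : S' ⊆ S) : Good C S' :=
  ⟨h.1.mono (Finset.coe_subset.2 hs), fun P hP => h.2.1 P (hs hP), fun P hP =>
    (Finset.sum_le_sum_of_subset (Finset.filter_subset_filter _ hs)).trans (h.2.2 P (hs hP))⟩

/-- embedding of the geometric means -/
lemma embed {p : ℝ} (hp : 1 < p) {w : E d → ℝ} (h : Nice p w) {Λ : ℝ≥0∞}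
    {S : Finset (Set (E d))} (hS : Good Λ S) {U : Set (E d)} (hU : MeasurableSet U)
    (hSU : ∀ Q ∈ S, Q ⊆ U) :
    ∑ Q ∈ S, ex (gm w Q) * volume Q ≤ (32 * Λ + 1) * wmeas w U := by
  by_cases hfin : wmeas w U = ⊤
  · rw [hfin, ENNReal.mul_top (by simp)]; exact le_top
  set v : E d → ℝ := fun x => w x ^ (1 / 2 : ℝ) with hv
  have hvm : Measurable v := h.1.pow_const _
  have hvp : ∀ x, 0 < v x := fun x => Real.rpow_pos_of_pos (h.2.1 x) _
  set f : E d → ℝ≥0∞ := U.indicator fun x => ENNReal.ofReal (v x) with hf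
  have hfm : Measurable f := hvm.ennreal_ofReal.indicator hU
  have hf2 : ∫⁻ x, f x ^ 2 = wmeas w U := by
    rw [wmeas, withDensity_apply _ hU, ← lintegral_indicator hU]
    refine lintegral_congr fun x => ?_
    by_cases hx : x ∈ U
    · rw [hf, indicator_of_mem hx, indicator_of_mem hx, ← ENNReal.ofReal_pow (hvp x).le, hv]
      congr 1
      rw [← Real.rpow_natCast, ← Real.rpow_mul (h.2.1 x).le]; norm_num
    · rw [hf, indicator_of_notMem hx, indicator_of_notMem hx]; simp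
  have hQf : ∀ Q ∈ S, ∫⁻ x in Q, f x = ∫⁻ x in Q, ENNReal.ofReal (v x) := fun Q hQ =>
    setLIntegral_congr_fun (hS.meas Q hQ) fun x hx => indicator_of_mem (hSU Q hQ hx) _
  have hvol : ∀ Q ∈ S, volume Q ≠ ⊤ := fun Q hQ => by
    obtain ⟨a, l, -, rfl⟩ := hS.2.1 Q hQ
    exact cube_ne_top a l
  obtain ⟨π, β, h1, -, h3⟩ := corona volume hS.1 hS.meas hvol hfm (by rw [hf2]; exact hfin)
    (fun Q hQ => by
      rw [hQf Q hQ]
      obtain ⟨a, l, hl, rfl⟩ := hS.2.1 Q hQ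
      exact lint_ne_zero hvm hvp (cube_ne_zero a hl))
  have h4 : ∀ Q ∈ S, ex (gm w Q) ≤ β (π Q) ^ 2 := by
    intro Q hQ
    have h5 := (h1 Q hQ).2.2
    have h6 := setInt_ne_top volume (f := f) (by rw [hf2]; exact hfin) (hvol Q hQ)
    rw [hQf Q hQ] at h5 h6
    obtain ⟨a, l, hl, rfl⟩ := hS.2.1 Q hQ
    have h7 := jensen hp h a hl (1 / 2) (integrableOn_of_avg hvm (fun x => (hvp x).le) a hl
      (ENNReal.div_ne_top h6 (cube_ne_zero a hl)))
    have h8 : ex (1 / 2 * gm w (cube a l)) ≤ β (π (cube a l)) :=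
      h7.trans (ENNReal.div_le_of_le_mul h5)
    calc ex (gm w (cube a l)) = ex (1 / 2 * gm w (cube a l)) ^ 2 := by
          rw [ex_pow]; congr 1; push_cast; ring
      _ ≤ _ := by gcongr
  calc ∑ Q ∈ S, ex (gm w Q) * volume Q ≤ ∑ Q ∈ S, β (π Q) ^ 2 * volume Q :=
        Finset.sum_le_sum fun Q hQ => by gcongr; exact h4 Q hQ
    _ = ∑ F ∈ S.image π, ∑ Q ∈ S.filter (π · = F), β (π Q) ^ 2 * volume Q :=
        (Finset.sum_fiberwise_of_maps_to (fun Q hQ => Finset.mem_image_of_mem _ hQ) _).symm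
    _ ≤ ∑ F ∈ S.image π, Λ * (β F ^ 2 * volume F) := by
        refine Finset.sum_le_sum fun F hF => ?_
        obtain ⟨Q₀, hQ₀, rfl⟩ := Finset.mem_image.1 hF
        calc ∑ Q ∈ S.filter (π · = π Q₀), β (π Q) ^ 2 * volume Q
            = ∑ Q ∈ S.filter (π · = π Q₀), β (π Q₀) ^ 2 * volume Q :=
              Finset.sum_congr rfl fun Q hQ => by rw [(Finset.mem_filter.1 hQ).2]
          _ ≤ ∑ Q ∈ S.filter (· ⊆ π Q₀), β (π Q₀) ^ 2 * volume Q := by
              refine Finset.sum_le_sum_of_subset fun Q hQ => ?_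
              have := Finset.mem_filter.1 hQ
              exact Finset.mem_filter.2 ⟨this.1, this.2 ▸ (h1 Q this.1).2.1⟩
          _ ≤ β (π Q₀) ^ 2 * (Λ * volume (π Q₀)) := by
              rw [← Finset.mul_sum]
              gcongr
              exact hS.2.2 _ (h1 Q₀ hQ₀).1
          _ = _ := by ring
    _ ≤ Λ * (32 * wmeas w U) := by rw [← Finset.mul_sum, ← hf2]; gcongr
    _ = 32 * Λ * wmeas w U := by ring
    _ ≤ _ := by gcongr; exact le_self_add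

lemma cube_data {p : ℝ} (hp : 1 < p) (θ : ℝ) {w : E d → ℝ} (h : Nice p w) (a : Fin d → ℝ) {l : ℝ}
    (hl : 0 < l) : ∃ α s : ℝ, avg w (cube a l) = ex α ∧ avg (dual p w) (cube a l) = ex s ∧
      -gm w (cube a l) ≤ (p - 1) * s ∧
      ex (θ * (α + (p - 1) * s) + (1 - θ) * (α - gm w (cube a l))) ≤ mixed p θ w := by
  obtain ⟨α, hα⟩ := exists_ex (avg_ne_zero h.1 h.2.1 a hl) (h.2.2 a l hl).1
  obtain ⟨s, hs⟩ := exists_ex (avg_ne_zero (dual_meas p h.1) (dual_pos p h.2.1) a hl)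
    (h.2.2 a l hl).2
  refine ⟨α, s, hα, hs, ?_, ?_⟩
  · have h1 := jensen hp h a hl (1 - conj p) (integrableOn_of_avg (dual_meas p h.1)
      (fun x => (dual_pos p h.2.1 x).le) a hl (h.2.2 a l hl).2)
    have h2 : ex ((1 - conj p) * gm w (cube a l)) ≤ ex s := hs ▸ h1
    have hp1 : 0 < p - 1 := by linarith
    have h3 := mul_le_mul_of_nonneg_left (ex_le.1 h2) hp1.le
    have e : (p - 1) * ((1 - conj p) * gm w (cube a l)) = -gm w (cube a l) := by
      unfold conj; field_simp; ring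
    linarith
  · have e1 : Ap p w (cube a l) = ex (α + (p - 1) * s) := by rw [Ap, hα, hs, ex_rpow, ex_add]
    have e2 : Aexp w (cube a l) = ex (α - gm w (cube a l)) := by
      rw [Aexp, hα, sub_eq_add_neg, ex_add, gm, ← average_neg]
      simp only [Real.log_inv]
      rfl
    rw [ex_add, ← ex_rpow, ← ex_rpow, ← e1, ← e2]
    exact le_iSup_of_le a (le_iSup_of_le l (le_iSup_of_le
      (f := fun _ : 0 < l => Ap p w (cube a l) ^ θ * Aexp w (cube a l) ^ (1 - θ)) hl le_rfl))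

lemma mixed_ne_zero {p : ℝ} (hp : 1 < p) (θ : ℝ) {w : E d → ℝ} (h : Nice p w) :
    mixed p θ w ≠ 0 := by
  obtain ⟨α, s, -, -, -, h1⟩ := cube_data hp θ h 0 one_pos
  exact fun h0 => ex_ne_zero _ (le_antisymm (h0 ▸ h1) zero_le)

/-- the one-sided testing estimate -/
theorem test_one {p θ : ℝ} (hp : 1 < p) (hθ : 1 / p < θ) {Λ : ℝ≥0∞} (hΛ : Λ ≠ ⊤) :
    ∃ c : ℝ≥0∞, c ≠ 0 ∧ c ≠ ⊤ ∧ ∀ w : E d → ℝ, Nice p w → ∀ K : ℝ≥0∞, K ≠ ⊤ → mixed p θ w ≤ K →
      ∀ S : Finset (Set (E d)), Good Λ S → ∀ U : Set (E d), MeasurableSet U → (∀ Q ∈ S, Q ⊆ U) →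
        ∫⁻ x, sp S (fun Q => (volume Q)⁻¹ * wmeas w Q) x ^ conj p ∂(wmeas (dual p w)) ≤
          (c * K) ^ conj p * wmeas w U := by
  obtain ⟨l, c₀, hl, hcore⟩ := core_real hp hθ
  have hq : 1 < conj p := (conj_holder hp).symm.lt
  obtain ⟨c₁, hc₁, hcl⟩ := class_testing (X := E d) hq (y := ex (-l))
    (pos_iff_ne_zero.2 (ex_ne_zero _))
    (by rw [ex, ENNReal.ofReal_lt_one, Real.exp_lt_one_iff]; linarith) hΛ
  refine ⟨(c₁ * (32 * Λ + 1) + 1) * ex c₀, mul_ne_zero (by simp) (ex_ne_zero _),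
    ENNReal.mul_ne_top (by finiteness) (ex_ne_top _), fun w h K hK hmK S hS U hU hSU => ?_⟩
  obtain ⟨k, rfl⟩ := exists_ex (fun h0 => mixed_ne_zero hp θ h (le_antisymm (h0 ▸ hmK) zero_le)) hK
  have hex : ∀ Q : Set (E d), ∃ u j : ℤ, Q ∈ S →
      (volume Q)⁻¹ * wmeas w Q ≤ 4 ^ u ∧
      (ex (j * Real.log 2 + (k - u * Real.log 4) / (p - 1)) * volume Q ≤ wmeas (dual p w) Q ∧
      wmeas (dual p w) Q ≤ 2 * ex (j * Real.log 2 + (k - u * Real.log 4) / (p - 1)) * volume Q) ∧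
      (4 ^ u * ((ex (-l))⁻¹) ^ (2 * j.natAbs)) ^ conj p * wmeas (dual p w) Q ≤
        (ex c₀ * ex k) ^ conj p * (ex (gm w Q) * volume Q) := by
    intro Q
    by_cases hQ : Q ∈ S
    · obtain ⟨a, r, hr, rfl⟩ := hS.2.1 Q hQ
      obtain ⟨α, s, e1, e2, e3, e4⟩ := cube_data hp θ h a hr
      obtain ⟨u, j, k1, k2, k3, k4⟩ := hcore α s _ k e3 (ex_le.1 (e4.trans hmK))
      refine ⟨u, j, fun _ => ⟨?_, ⟨?_, ?_⟩, ?_⟩⟩
      · rw [avg_eq, e1, four_zpow_ex]; exact ex_le.2 k1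
      · rw [← avg_mul _ a hr, e2]
        gcongr
        exact ex_le.2 k2
      · rw [← avg_mul _ a hr, e2]
        gcongr
        have := ex_le.2 k3
        rwa [ex_add, ex_log_two] at this
      · rw [← avg_mul _ a hr, e2, four_zpow_ex, ex_inv, ex_pow, ← ex_add, ← ex_add, ex_rpow, ex_rpow,
          ← mul_assoc, ← mul_assoc, ← ex_add, ← ex_add]
        gcongr
        refine ex_le.2 ?_
        push_cast
        rw [neg_neg]
        exact k4
    · exact ⟨0, 0, fun h' => absurd h' hQ⟩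
  choose u j huj using hex
  have h1 := hcl volume (wmeas (dual p w)) S hS.1 hS.meas hS.2.2 u j
    (fun u j => ex (j * Real.log 2 + (k - u * Real.log 4) / (p - 1)))
    (fun Q => (volume Q)⁻¹ * wmeas w Q) (fun Q hQ => (huj Q hQ).1) (fun Q hQ => (huj Q hQ).2.1)
  have h2 := embed hp h hS hU hSU
  have hq0 : 0 ≤ conj p := by linarith
  calc _ ≤ c₁ * ∑ Q ∈ S, (ex c₀ * ex k) ^ conj p * (ex (gm w Q) * volume Q) :=
        h1.trans (mul_le_mul_right (Finset.sum_le_sum fun Q hQ => (huj Q hQ).2.2) _)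
    _ ≤ c₁ * ((ex c₀ * ex k) ^ conj p * ((32 * Λ + 1) * wmeas w U)) := by
        rw [← Finset.mul_sum]; gcongr
    _ = c₁ * (32 * Λ + 1) * (ex c₀ * ex k) ^ conj p * wmeas w U := by ring
    _ ≤ (c₁ * (32 * Λ + 1) + 1) ^ conj p * (ex c₀ * ex k) ^ conj p * wmeas w U := by
        gcongr
        exact le_self_add.trans (ENNReal.le_rpow_self_of_one_le le_add_self hq.le)
    _ = _ := by rw [← ENNReal.mul_rpow_of_nonneg _ _ hq0, mul_assoc]

end Pool.Agent.H552Z.Pos
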