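import Pool.Agent.H552Z.Pos2

set_option autoImplicit false

/-!
# Mixed bounds for Calderon-Zygmund operators
-/

namespace Pool.Agent.H552Z.Pos

open MeasureTheory Set Filter Topology Pool.Agent.H572Z.Sp Pool.Agent.H572Z.Ex Pool.Agent.H547Z.Pos
open scoped ENNReal NNReal Classical

variable {d : ℕ} {op : (E d → ℂ) → E d → ℂ} {D : ℕ} {B C₁ C₂ : ℝ≥0∞}

lemma sum_rpow_le_card {ι : Type*} [Fintype ι] (y : ι → ℝ≥0∞) {r : ℝ} (hr : 0 < r) :
    (∑ i, y i) ^ r ≤ (Fintype.card ι : ℝ≥0∞) ^ r * ∑ i, y i ^ r := by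
  rcases isEmpty_or_nonempty ι with h | h
  · simp [hr]
  obtain ⟨j, -, hj⟩ := Finset.exists_max_image Finset.univ y Finset.univ_nonempty
  calc (∑ i, y i) ^ r ≤ (Fintype.card ι * y j) ^ r := by
        gcongr
        simpa using Finset.sum_le_card_nsmul Finset.univ y (y j) hj
    _ ≤ _ := by
        rw [ENNReal.mul_rpow_of_nonneg _ _ hr.le]
        gcongr
        exact Finset.single_le_sum (f := fun i => y i ^ r) (fun _ _ => zero_le) (Finset.mem_univ j)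

/-- Power bounds for sparse operators pass to the Calderon-Zygmund operator. -/
theorem transfer_r (hd : 1 ≤ d) (H : CZ op D B C₁ C₂) (hD : 2 ≤ D) (hB : B ≠ ⊤) (hC₁ : C₁ ≠ ⊤)
    (hC₂ : C₂ ≠ ⊤) {r : ℝ} (hr : 0 < r) : ∃ A C : ℝ≥0∞, A ≠ ⊤ ∧ C ≠ ⊤ ∧ ∀ g : E d → ℂ, Measurable g →
      MemLp g 2 volume → Bornology.IsBounded (Function.support g) →
      ∀ (ν : Measure (E d)), ν ≪ volume → ∀ N : ℝ≥0∞,
      (∀ S, Good C S → ∫⁻ x, sp S (fun Q => (volume Q)⁻¹ * ∫⁻ y in Q, ‖g y‖ₑ) x ^ r ∂ν ≤ N) →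
      ∫⁻ x, ‖op g x‖ₑ ^ r ∂ν ≤ A * N := by
  obtain ⟨Cl, C, hCl, hC, hdom⟩ := H.dom hd hD hB hC₁ hC₂
  set n : ℝ≥0∞ := ((Fintype.card (Fin d → ZMod (2 * D + 1)) : ℕ) : ℝ≥0∞) with hn
  have hnt : n ≠ ⊤ := ENNReal.natCast_ne_top _
  refine ⟨Cl ^ r * n ^ r * n, C, ENNReal.mul_ne_top (ENNReal.mul_ne_top
    (ENNReal.rpow_ne_top_of_nonneg hr.le hCl) (ENNReal.rpow_ne_top_of_nonneg hr.le hnt)) hnt, hC,
    fun g hgm hg hb ν hν N hN => ?_⟩
  obtain ⟨R, hR, hsupp⟩ := hb.subset_ball_lt 0 0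
  have key : ∀ k : ℕ, ∫⁻ x in Metric.ball 0 (R + k), ‖op g x‖ₑ ^ r ∂ν ≤ Cl ^ r * n ^ r * n * N := by
    intro k
    obtain ⟨S, hS1, hS2, hS3⟩ := hdom g hgm hg (R + k) (by positivity)
      (hsupp.trans (Metric.ball_subset_ball (by simp)))
    set a : Set (E d) → ℝ≥0∞ := fun Q => (volume Q)⁻¹ * ∫⁻ y in Q, ‖g y‖ₑ
    set ψ : Finset (Idx d) → E d → ℝ≥0∞ := fun s x => Cl ^ r * n ^ r * ∑ c, sp (S s c) a x ^ r
      with hψ
    have hm : ∀ s c, Measurable (fun x => sp (S s c) a x ^ r) := fun s c =>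
      (sp_meas (hS1 s c).meas _).pow_const r
    have hψm : ∀ s, Measurable (ψ s) := fun s =>
      (Finset.measurable_sum _ fun c _ => hm s c).const_mul _
    have hdir : Directed (· ≤ ·) ψ := Monotone.directed_le fun s s' h x => by
      simp only [hψ]
      gcongr with c
      exact sp_mono (hS2 c h) _ _
    calc ∫⁻ x in Metric.ball 0 (R + k), ‖op g x‖ₑ ^ r ∂ν
        ≤ ∫⁻ x in Metric.ball 0 (R + k), ⨆ s, ψ s x ∂ν := by
          refine setLIntegral_mono_ae' measurableSet_ball (hν.ae_le ?_)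
          filter_upwards [hS3] with x hx hxb
          obtain ⟨s, hs⟩ := hx hxb
          refine le_iSup_of_le s ?_
          calc ‖op g x‖ₑ ^ r ≤ (Cl * ∑ c, sp (S s c) a x) ^ r := by gcongr
            _ ≤ _ := by
                rw [ENNReal.mul_rpow_of_nonneg _ _ hr.le, hψ]
                simp only [mul_assoc]
                gcongr
                exact sum_rpow_le_card _ hr
      _ ≤ ∫⁻ x, ⨆ s, ψ s x ∂ν := setLIntegral_le_lintegral _ _
      _ = ⨆ s, ∫⁻ x, ψ s x ∂ν := lintegral_iSup_directed_of_measurable hψm hdir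
      _ ≤ _ := by
          refine iSup_le fun s => ?_
          rw [hψ, lintegral_const_mul _ (Finset.measurable_sum _ fun c _ => hm s c),
            lintegral_finsetSum _ fun c _ => hm s c, mul_assoc _ n]
          gcongr
          have := Finset.sum_le_card_nsmul Finset.univ _ N fun c _ => hN _ (hS1 s c)
          rwa [nsmul_eq_mul, Finset.card_univ] at this
  have hU : (⋃ k : ℕ, Metric.ball (0 : E d) (R + k)) = univ := by
    refine eq_univ_of_forall fun x => ?_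
    obtain ⟨k, hk⟩ := exists_nat_gt ‖x‖
    exact mem_iUnion.2 ⟨k, mem_ball_zero_iff.2 (by linarith)⟩
  rw [← setLIntegral_univ, ← hU, setLIntegral_iUnion_of_directed _
    (Monotone.directed_le fun a b h => Metric.ball_subset_ball (by gcongr))]
  exact iSup_le key

lemma test_l2 {g : E d → ℂ} (hg : IsTest g) : MemLp g 2 volume := by
  obtain ⟨hm, ⟨M, hM⟩, hc⟩ := hg
  exact hc.memLp_of_bound hm.aestronglyMeasurable M (Eventually.of_forall hM)

lemma test_bdd {g : E d → ℂ} (hg : IsTest g) : Bornology.IsBounded (Function.support g) :=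
  hg.2.2.isBounded.subset (subset_tsupport g)

lemma wmeas_ac (w : E d → ℝ) : wmeas w ≪ volume := withDensity_absolutelyContinuous _ _

lemma opT_ae_w {T : (E d → ℂ) → E d → ℂ} (hT : IsCZO T) {g : E d → ℂ} (hg : IsTest g)
    (w : E d → ℝ) : ∀ᵐ x ∂(wmeas w), opT T g x = T g x :=
  (wmeas_ac w).ae_le (opT_ae hT (test_l2 hg))

lemma wmeas_fin {p : ℝ} {w : E d → ℝ} (h : Nice p w) {Λ : ℝ≥0∞} {S : Finset (Set (E d))}
    (hS : Good Λ S) : ∀ P ∈ S, wmeas w P ≠ ⊤ := by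
  intro P hP
  obtain ⟨a, l, hl, rfl⟩ := hS.2.1 P hP
  rw [← avg_mul _ a hl]
  exact ENNReal.mul_ne_top (h.2.2 a l hl).1 (cube_ne_top a l)

lemma div_int {v : E d → ℝ} (hm : Measurable v) (hv : ∀ x, 0 < v x) {g : E d → ℂ}
    (hg : Measurable g) {Q : Set (E d)} (hQ : MeasurableSet Q) :
    ∫⁻ y in Q, ‖g y‖ₑ / ENNReal.ofReal (v y) ∂(wmeas v) = ∫⁻ y in Q, ‖g y‖ₑ := by
  rw [wmeas, setLIntegral_withDensity_eq_setLIntegral_mul _ hm.ennreal_ofReal
    (g := fun y => ‖g y‖ₑ / ENNReal.ofReal (v y)) (hg.enorm.div hm.ennreal_ofReal) hQ]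
  exact lintegral_congr fun y => ENNReal.mul_div_cancel (ENNReal.ofReal_pos.2 (hv y)).ne'
    ENNReal.ofReal_ne_top

lemma div_pow_int {p : ℝ} (hp : 1 < p) {w : E d → ℝ} (hm : Measurable w) (hw : ∀ x, 0 < w x)
    {g : E d → ℂ} (hg : Measurable g) :
    ∫⁻ y, (‖g y‖ₑ / ENNReal.ofReal (dual p w y)) ^ p ∂(wmeas (dual p w)) =
      ∫⁻ y, ‖g y‖ₑ ^ p ∂(wmeas w) := by
  have hd := dual_meas p hm
  rw [wmeas, wmeas, lintegral_withDensity_eq_lintegral_mul _ hd.ennreal_ofReal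
    (g := fun y => (‖g y‖ₑ / ENNReal.ofReal (dual p w y)) ^ p)
    ((hg.enorm.div hd.ennreal_ofReal).pow_const p),
    lintegral_withDensity_eq_lintegral_mul _ hm.ennreal_ofReal (hg.enorm.pow_const p)]
  refine lintegral_congr fun y => ?_
  obtain ⟨t, ht⟩ := exists_ex (ENNReal.ofReal_pos.2 (hw y)).ne' ENNReal.ofReal_ne_top
  have e : ENNReal.ofReal (dual p w y) = ex ((1 - conj p) * t) := by
    rw [dual, ← ENNReal.ofReal_rpow_of_pos (hw y), ht, ex_rpow]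
  have hp1 : p - 1 ≠ 0 := by linarith
  simp only [Pi.mul_apply]
  rw [e, ht, div_eq_mul_inv, ENNReal.mul_rpow_of_nonneg _ _ (by linarith), ex_inv, ex_rpow,
    mul_left_comm, ← ex_add, mul_comm]
  congr 2
  unfold conj; field_simp; ring

lemma sp_congr {p : ℝ} {w : E d → ℝ} (h : Nice p w) {Λ : ℝ≥0∞} {S : Finset (Set (E d))}
    (hS : Good Λ S) {g : E d → ℂ} (hg : Measurable g) (x : E d) :
    sp S (fun Q => (volume Q)⁻¹ * ∫⁻ y in Q, ‖g y‖ₑ) x = sp S (fun Q => (volume Q)⁻¹ *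
      ∫⁻ y in Q, ‖g y‖ₑ / ENNReal.ofReal (dual p w y) ∂(wmeas (dual p w))) x :=
  Finset.sum_congr rfl fun Q hQ => by
    beta_reduce
    rw [div_int (dual_meas p h.1) (dual_pos p h.2.1) hg (hS.meas Q (Finset.mem_filter.1 hQ).1)]

theorem strong_part (hd : 1 ≤ d) {p θ θ' : ℝ} (hp : 1 < p) (hθ : 1 / p < θ)
    (hθ' : 1 / conj p < θ') {T : (E d → ℂ) → E d → ℂ} (hT : IsCZO T) :
    ∃ C : ℝ≥0∞, C ≠ ⊤ ∧ ∀ w : E d → ℝ, Nice p w → ∀ K : ℝ≥0∞, K ≠ ⊤ → mixed p θ w ≤ K →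
      mixed (conj p) θ' (dual p w) ≤ K → opStrong T p w ≤ C * K := by
  have hpq := conj_holder hp
  have hp0 : 0 < p := by linarith
  obtain ⟨B, C₁, C₂, hB, hC₁, hC₂, H⟩ := hT.cz hd
  obtain ⟨A, Λ, hA, hΛ, htr⟩ := transfer_r hd H (by omega) hB hC₁ hC₂ hp0
  obtain ⟨c₁, hc₁0, hc₁, h1⟩ := test_one (d := d) hp hθ hΛ
  obtain ⟨c₂, -, hc₂, h2⟩ := test_one (d := d) hpq.symm.lt hθ' hΛ
  obtain ⟨c, hc, h3⟩ := testing_p (X := E d) hpq
  refine ⟨(A * c) ^ (1 / p) * (c₁ + c₂), ENNReal.mul_ne_top (ENNReal.rpow_ne_top_of_nonneg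
    (by positivity) (ENNReal.mul_ne_top hA hc)) (ENNReal.add_ne_top.2 ⟨hc₁, hc₂⟩),
    fun w h K hK k1 k2 => iSup₂_le fun g hg => ENNReal.div_le_of_le_mul ?_⟩
  have hK0 : K ≠ 0 := fun h0 => mixed_ne_zero hp θ h (le_antisymm (h0 ▸ k1) zero_le)
  have hmain : ∫⁻ x, ‖opT T g x‖ₑ ^ p ∂(wmeas w) ≤
      A * (c * ((c₁ + c₂) * K) ^ p * ∫⁻ x, ‖g x‖ₑ ^ p ∂(wmeas w)) := by
    refine htr g hg.1 (test_l2 hg) (test_bdd hg) _ (wmeas_ac w) _ fun S hS => ?_
    simp_rw [sp_congr h hS hg.1]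
    rw [← div_pow_int hp h.1 h.2.1 hg.1]
    refine h3 (wmeas w) (wmeas (dual p w)) S hS.1 hS.meas (wmeas_fin h hS)
      (wmeas_fin (h.dual hp) hS) (fun Q => (volume Q)⁻¹) (fun P hP => ?_) _
      (mul_ne_zero (by simp [hc₁0]) hK0)
      (ENNReal.mul_ne_top (ENNReal.add_ne_top.2 ⟨hc₁, hc₂⟩) hK) (fun R hR => ?_) (fun R hR => ?_) _
      (hg.1.enorm.div (dual_meas p h.1).ennreal_ofReal)
    · obtain ⟨a, l, hl, rfl⟩ := hS.2.1 P hP
      exact ENNReal.inv_ne_top.2 (cube_ne_zero a hl)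
    · have := h2 _ (h.dual hp) K hK k2 _ (Good_mono hS (Finset.filter_subset (· ⊆ R) S)) R
        (hS.meas R hR) fun Q hQ => (Finset.mem_filter.1 hQ).2
      rw [conj_conj hp, dual_dual hp h.2.1] at this
      refine this.trans ?_
      gcongr
      exact le_add_self
    · have := h1 _ h K hK k1 _ (Good_mono hS (Finset.filter_subset (· ⊆ R) S)) R
        (hS.meas R hR) fun Q hQ => (Finset.mem_filter.1 hQ).2
      refine this.trans ?_
      have := hpq.symm.pos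
      gcongr
      exact le_self_add
  have hae : ∫⁻ x, ‖T g x‖ₑ ^ p ∂(wmeas w) = ∫⁻ x, ‖opT T g x‖ₑ ^ p ∂(wmeas w) :=
    lintegral_congr_ae ((opT_ae_w hT hg w).mono fun x hx => by
      simp only [hx])
  have h1p : (0 : ℝ) ≤ 1 / p := by positivity
  rw [H572Z.Ex.lpNorm, H572Z.Ex.lpNorm, hae]
  refine (ENNReal.rpow_le_rpow hmain h1p).trans (le_of_eq ?_)
  rw [ENNReal.mul_rpow_of_nonneg _ _ h1p, ENNReal.mul_rpow_of_nonneg _ _ h1p,
    ENNReal.mul_rpow_of_nonneg _ _ h1p, ENNReal.mul_rpow_of_nonneg _ _ h1p, ← ENNReal.rpow_mul,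
    mul_one_div_cancel hp0.ne', ENNReal.rpow_one]
  ring

lemma weak_cancel {p q : ℝ} (hpq : p.HolderConjugate q) {t m b : ℝ≥0∞} (hm : m ≠ ⊤)
    (h : t * m ≤ b * m ^ (1 / q)) : t * m ^ (1 / p) ≤ b := by
  by_cases h0 : m = 0
  · rw [h0, ENNReal.zero_rpow_of_pos (by have := hpq.pos; positivity), mul_zero]; exact zero_le
  obtain ⟨x, rfl⟩ := exists_ex h0 hm
  have e : ex x = ex x ^ (1 / p) * ex x ^ (1 / q) := by
    rw [ex_rpow, ex_rpow, ← ex_add, ← add_mul, one_div, one_div, hpq.inv_add_inv_eq_one, one_mul]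
  have h2 : t * ex x ^ (1 / p) * ex x ^ (1 / q) ≤ b * ex x ^ (1 / q) := by
    rw [mul_assoc, ← e]; exact h
  rw [ex_rpow x (1 / q)] at h2
  exact (ENNReal.mul_le_mul_iff_left (ex_ne_zero _) (ex_ne_top _)).1 h2

theorem weak_part (hd : 1 ≤ d) {p θ : ℝ} (hp : 1 < p) (hθ : 1 / p < θ)
    {T : (E d → ℂ) → E d → ℂ} (hT : IsCZO T) :
    ∃ C : ℝ≥0∞, C ≠ ⊤ ∧ ∀ w : E d → ℝ, InAp p w → mixed p θ w ≠ ⊤ →
      opWeak T p w ≤ C * mixed p θ w := by
  have hpq := conj_holder hp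
  have hp0 : 0 < p := by linarith
  obtain ⟨B, C₁, C₂, hB, hC₁, hC₂, H⟩ := hT.cz hd
  obtain ⟨A, Λ, hA, hΛ, htr⟩ := transfer_r hd H (by omega) hB hC₁ hC₂ one_pos
  obtain ⟨c₁, -, hc₁, h1⟩ := test_one (d := d) hp hθ hΛ
  obtain ⟨c, hc, h3⟩ := weak_p (X := E d) hpq
  refine ⟨A * c * c₁, by finiteness, fun w hw hK => iSup₂_le fun g hg =>
    ENNReal.div_le_of_le_mul (iSup_le fun t => ?_)⟩
  have h := nice_of_inAp hp hw
  set K := mixed p θ w with hKdef
  set b := A * c * c₁ * K * H572Z.Ex.lpNorm p w g with hb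
  set G : Set (E d) := {x | (t : ℝ) < ‖opT T g x‖} with hG
  have hGm : MeasurableSet G := measurableSet_lt measurable_const (H.meas g).norm
  have hae : wmeas w {x | (t : ℝ) < ‖T g x‖} = wmeas w G :=
    measure_congr ((opT_ae_w hT hg w).mono fun x hx => by
      change ((t : ℝ) < ‖T g x‖) = ((t : ℝ) < ‖opT T g x‖)
      rw [hx])
  have key : ∀ k : ℕ, (t : ℝ≥0∞) * wmeas w (G ∩ Metric.ball 0 k) ^ (1 / p) ≤ b := by
    intro k
    set F := G ∩ Metric.ball 0 k with hF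
    have hFm : MeasurableSet F := hGm.inter measurableSet_ball
    have hFt : wmeas w F ≠ ⊤ := by
      rw [wmeas, withDensity_apply _ hFm]
      exact IsWeight.fin ⟨hw.1, fun x => (hw.2.1 x).le, hw.2.2.1⟩
        (Metric.isBounded_ball.subset inter_subset_right)
    refine weak_cancel hpq hFt ?_
    have k1 := htr g hg.1 (test_l2 hg) (test_bdd hg) ((wmeas w).restrict F)
      (Measure.absolutelyContinuous_restrict.trans (wmeas_ac w))
      (c * (c₁ * K) * H572Z.Ex.lpNorm p w g * wmeas w F ^ (1 / conj p)) fun S hS => by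
        simp_rw [ENNReal.rpow_one, sp_congr h hS hg.1]
        rw [H572Z.Ex.lpNorm, ← div_pow_int hp h.1 h.2.1 hg.1]
        exact h3 (wmeas w) (wmeas (dual p w)) S hS.1 hS.meas (wmeas_fin h hS)
          (fun Q => (volume Q)⁻¹) _
          (fun S' hS' U hU hSU => h1 w h K hK le_rfl S' (Good_mono hS hS') U hU hSU) _
          (hg.1.enorm.div (dual_meas p h.1).ennreal_ofReal) F hFm
    simp_rw [ENNReal.rpow_one] at k1
    calc (t : ℝ≥0∞) * wmeas w F = ∫⁻ _ in F, (t : ℝ≥0∞) ∂(wmeas w) := (setLIntegral_const _ _).symm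
      _ ≤ ∫⁻ x in F, ‖opT T g x‖ₑ ∂(wmeas w) := by
          refine setLIntegral_mono' hFm fun x hx => ?_
          rw [← ofReal_norm, ← ENNReal.ofReal_coe_nnreal]
          exact ENNReal.ofReal_le_ofReal (le_of_lt hx.1)
      _ ≤ _ := k1
      _ = _ := by rw [hb]; ring
  have hU : G = ⋃ k : ℕ, G ∩ Metric.ball (0 : E d) k := by
    rw [← inter_iUnion, Metric.iUnion_ball_nat, inter_univ]
  have hsup : wmeas w G = ⨆ k : ℕ, wmeas w (G ∩ Metric.ball 0 k) := by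
    conv_lhs => rw [hU]
    exact Monotone.measure_iUnion fun a b h =>
      inter_subset_inter_right _ (Metric.ball_subset_ball (by gcongr))
  rw [hae, hsup]
  have h1p : (0 : ℝ) < 1 / p := by positivity
  have e := (ENNReal.orderIsoRpow (1 / p) h1p).map_iSup fun k : ℕ => wmeas w (G ∩ Metric.ball 0 k)
  simp only [ENNReal.orderIsoRpow_apply] at e
  rw [e, ENNReal.mul_iSup]
  exact iSup_le key

theorem pos_part (d : ℕ) (hd : 1 ≤ d) (p α : ℝ) (hp : 1 < p) (h0 : 0 < α) (h1 : α < 1)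
    (T : (E d → ℂ) → E d → ℂ) (hT : IsCZO T) : ∃ C : ℝ≥0, ∀ w : E d → ℝ, InAp p w →
      opWeak T p w ≤ C * mixed p (1 / (p - α)) w ∧
      opStrong T p w ≤ C * (mixed p (1 / (p - α)) w +
        mixed (conj p) (1 / (conj p - α)) (dual p w)) := by
  have hq : 1 < conj p := (conj_holder hp).symm.lt
  have hθ : 1 / p < 1 / (p - α) := one_div_lt_one_div_of_lt (by linarith) (by linarith)
  have hθ' : 1 / conj p < 1 / (conj p - α) := one_div_lt_one_div_of_lt (by linarith) (by linarith)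
  obtain ⟨C₁, hC₁, hw⟩ := weak_part hd hp hθ hT
  obtain ⟨C₂, hC₂, hs⟩ := strong_part hd hp hθ hθ' hT
  have hC : C₁ + C₂ + 1 ≠ ⊤ := by finiteness
  refine ⟨(C₁ + C₂ + 1).toNNReal, fun w h => ?_⟩
  rw [ENNReal.coe_toNNReal hC]
  constructor
  · by_cases hK : mixed p (1 / (p - α)) w = ⊤
    · rw [hK, ENNReal.mul_top (by simp)]; exact le_top
    · refine (hw w h hK).trans ?_
      gcongr
      exact le_self_add.trans le_self_add
  · by_cases hK : mixed p (1 / (p - α)) w + mixed (conj p) (1 / (conj p - α)) (dual p w) = ⊤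
    · rw [hK, ENNReal.mul_top (by simp)]; exact le_top
    · refine (hs w (nice_of_inAp hp h) _ hK le_self_add le_add_self).trans ?_
      gcongr
      exact le_add_self.trans le_self_add

end Pool.Agent.H552Z.Pos
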